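import Mathlib

/-!
# The isoperimetric profile of the square flat torus in dimension at least 10

For every `d ≥ 10` the model curves do not give the isoperimetric profile of `T^d = (ℝ/ℤ)^d`:
for all `β` in an interval `[ω_d / 2^d, V)` there is a connected smooth domain of volume `β` whose
boundary volume is strictly smaller than every `φ_k(β)` that is defined.

The domain is the image of the convex body `l • K`, where `K` is given by
`∑ (x_i ^ 2 + s * x_i ^ 4) ≤ 1/4 + s/16`, with `s > 0` small and `l < 1`.  It lies in the open unit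
cube, has the ball of radius `l / 2` inside, and therefore has boundary volume at most
`2 d β / l`, while the volume of `K` is larger than that of the ball of radius `1 / 2`.
-/

open MeasureTheory Set Filter Topology Metric
open scoped ENNReal ContDiff Pointwise

namespace Pool.Agent.Results.MP_cbfbdc_gt.HighDimension

/-- Euclidean `d`-space. -/
abbrev E (d : ℕ) := EuclideanSpace ℝ (Fin d)

/-- The torus `T^d = (ℝ/ℤ)^d`; its volume is the product of the Haar probability measures. -/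
abbrev Torus (d : ℕ) := Fin d → UnitAddCircle

/-- The projection `ℝ^d → T^d`. -/
def proj {d : ℕ} (x : E d) : Torus d := fun i => ((x i : ℝ) : UnitAddCircle)

/-- The flat distance on `T^d`: the norm on `UnitAddCircle` is the distance to the nearest
integer. -/
noncomputable def flatDist {d : ℕ} (x y : Torus d) : ℝ := √(∑ i, ‖x i - y i‖ ^ 2)

/-- The flat open `ε`-neighbourhood of a subset of the torus. -/
def nbhd {d : ℕ} (ε : ℝ) (S : Set (Torus d)) : Set (Torus d) := {y | ∃ p ∈ S, flatDist y p < ε}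

/-- The boundary volume of `D`, as the upper Minkowski content of the topological boundary of `D`:
the upper limit, as `ε` decreases to `0`, of `Vol (N_ε(∂D)) / (2 ε)`.  For a domain with smooth
boundary it is the `(d-1)`-dimensional volume of the boundary. -/
noncomputable def boundaryVol {d : ℕ} (D : Set (Torus d)) : ℝ≥0∞ :=
  limsup (fun ε : ℝ => volume (nbhd ε (frontier D)) / ENNReal.ofReal (2 * ε)) (𝓝[>] 0)

/-- `D` is a closed (hence compact) subset of the torus with smooth boundary: near every lift `p`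
of a boundary point, `D` is given by `g ≤ 0` for a smooth `g` with `g p = 0` and `dg_p ≠ 0`. -/
structure IsSmoothDomain {d : ℕ} (D : Set (Torus d)) : Prop where
  closed : IsClosed D
  smooth : ∀ p : E d, proj p ∈ frontier D → ∃ U ∈ 𝓝 p, ∃ g : E d → ℝ,
    ContDiff ℝ ∞ g ∧ g p = 0 ∧ fderiv ℝ g p ≠ 0 ∧ ∀ x ∈ U, proj x ∈ D ↔ g x ≤ 0

/-- The volume of the unit ball of Euclidean `m`-space. -/
noncomputable def omega (m : ℕ) : ℝ := (volume (ball (0 : EuclideanSpace ℝ (Fin m)) 1)).toReal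

/-- the convex function -/
noncomputable def Phi {d : ℕ} (s : ℝ) (x : E d) : ℝ := ∑ i, (x i ^ 2 + s * x i ^ 4)

lemma Phi_convex {d : ℕ} {s : ℝ} (hs : 0 ≤ s) (x y : E d) {a b : ℝ} (ha : 0 ≤ a) (hb : 0 ≤ b)
    (hab : a + b = 1) : Phi s (a • x + b • y) ≤ a * Phi s x + b * Phi s y := by
  unfold Phi
  rw [Finset.mul_sum, Finset.mul_sum, ← Finset.sum_add_distrib]
  refine Finset.sum_le_sum fun i _ => ?_
  have h2 : (a * x i + b * y i) ^ 2 ≤ a * x i ^ 2 + b * y i ^ 2 := by
    have := (Even.convexOn_pow (𝕜 := ℝ) even_two).2 (mem_univ (x i)) (mem_univ (y i)) ha hb hab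
    simpa using this
  have h4 : (a * x i + b * y i) ^ 4 ≤ a * x i ^ 4 + b * y i ^ 4 := by
    have := (Even.convexOn_pow (𝕜 := ℝ) (n := 4) (by decide)).2 (mem_univ (x i)) (mem_univ (y i))
      ha hb hab
    simpa using this
  have : (a • x + b • y) i = a * x i + b * y i := by simp
  rw [this]
  nlinarith [mul_le_mul_of_nonneg_left h4 hs]

lemma Phi_le_norm {d : ℕ} {s : ℝ} (hs : 0 ≤ s) (x : E d) :
    Phi s x ≤ ‖x‖ ^ 2 + s * ‖x‖ ^ 4 := by
  have h1 : ‖x‖ ^ 2 = ∑ i, x i ^ 2 := EuclideanSpace.real_norm_sq_eq x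
  have h2 : ∑ i, x i ^ 4 ≤ ‖x‖ ^ 4 := by
    have : ‖x‖ ^ 4 = ∑ i, x i ^ 2 * ‖x‖ ^ 2 := by
      rw [← Finset.sum_mul, ← h1]; ring
    rw [this]
    refine Finset.sum_le_sum fun i _ => ?_
    have : x i ^ 2 ≤ ‖x‖ ^ 2 := by
      rw [h1]
      exact Finset.single_le_sum (f := fun i => x i ^ 2) (fun j _ => sq_nonneg _) (Finset.mem_univ i)
    nlinarith [sq_nonneg (x i)]
  unfold Phi
  rw [Finset.sum_add_distrib, ← Finset.mul_sum, ← h1]
  nlinarith [mul_le_mul_of_nonneg_left h2 hs]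

lemma norm_sq_le_Phi {d : ℕ} {s : ℝ} (hs : 0 ≤ s) (x : E d) : ‖x‖ ^ 2 ≤ Phi s x := by
  rw [EuclideanSpace.real_norm_sq_eq]
  unfold Phi
  refine Finset.sum_le_sum fun i _ => ?_
  have : 0 ≤ s * x i ^ 4 := mul_nonneg hs (by positivity)
  linarith

lemma Phi_lt_of_norm_lt {d : ℕ} {s : ℝ} (hs : 0 ≤ s) (x : E d) (hx : ‖x‖ < 1 / 2) :
    Phi s x < 1 / 4 + s / 16 := by
  have h := Phi_le_norm hs x
  have h0 : 0 ≤ ‖x‖ := norm_nonneg x
  have h2 : ‖x‖ ^ 2 < 1 / 4 := by nlinarith
  have h4 : ‖x‖ ^ 4 ≤ 1 / 16 := by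
    have : ‖x‖ ^ 4 = (‖x‖ ^ 2) ^ 2 := by ring
    rw [this]; nlinarith [sq_nonneg ‖x‖]
  nlinarith [mul_le_mul_of_nonneg_left h4 hs]

lemma Phi_le_of_norm_le {d : ℕ} {s : ℝ} (hs : 0 ≤ s) (x : E d) (hx : ‖x‖ ≤ 1 / 2) :
    Phi s x ≤ 1 / 4 + s / 16 := by
  have h := Phi_le_norm hs x
  have h0 : 0 ≤ ‖x‖ := norm_nonneg x
  have h2 : ‖x‖ ^ 2 ≤ 1 / 4 := by nlinarith
  have h4 : ‖x‖ ^ 4 ≤ 1 / 16 := by
    have : ‖x‖ ^ 4 = (‖x‖ ^ 2) ^ 2 := by ring
    rw [this]; nlinarith [sq_nonneg ‖x‖]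
  nlinarith [mul_le_mul_of_nonneg_left h4 hs]

/-- coordinates of a point with `Phi ≤ C` are at most `1/2` in absolute value -/
lemma abs_le_of_Phi_le {d : ℕ} {s : ℝ} (hs : 0 ≤ s) (x : E d) (hx : Phi s x ≤ 1 / 4 + s / 16)
    (i : Fin d) : |x i| ≤ 1 / 2 := by
  have h1 : x i ^ 2 + s * x i ^ 4 ≤ Phi s x := by
    unfold Phi
    exact Finset.single_le_sum (f := fun i => x i ^ 2 + s * x i ^ 4)
      (fun j _ => by positivity) (Finset.mem_univ i)
  by_contra h
  push Not at h
  have h0 : 1 / 4 < x i ^ 2 := by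
    have : x i ^ 2 = |x i| ^ 2 := (sq_abs _).symm
    rw [this]; nlinarith
  have h4 : 1 / 16 ≤ x i ^ 4 := by
    have : x i ^ 4 = (x i ^ 2) ^ 2 := by ring
    rw [this]; nlinarith
  nlinarith [mul_le_mul_of_nonneg_left h4 hs]

lemma continuous_Phi {d : ℕ} (s : ℝ) : Continuous (Phi s : E d → ℝ) := by
  unfold Phi
  fun_prop

lemma Phi_inner {d : ℕ} {s : ℝ} (hs : 0 ≤ s) {l e : ℝ} (hl : 0 < l) (he : 0 < e)
    (a b : E d) (hb : Phi s (l⁻¹ • b) ≤ 1 / 4 + s / 16) (hab : ‖a - b‖ ≤ e) :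
    Phi s ((l + 2 * e)⁻¹ • a) ≤ 1 / 4 + s / 16 := by
  have h1 : (l + 2 * e)⁻¹ • a = (l / (l + 2 * e)) • (l⁻¹ • b)
      + (2 * e / (l + 2 * e)) • ((2 * e)⁻¹ • (a - b)) := by
    rw [smul_smul, smul_smul]
    have e1 : l / (l + 2 * e) * l⁻¹ = (l + 2 * e)⁻¹ := by field_simp
    have e2 : 2 * e / (l + 2 * e) * (2 * e)⁻¹ = (l + 2 * e)⁻¹ := by field_simp
    rw [e1, e2, ← smul_add]; congr 1; abel
  rw [h1]
  have h2 : Phi s ((2 * e)⁻¹ • (a - b)) ≤ 1 / 4 + s / 16 := by
    apply Phi_le_of_norm_le hs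
    rw [norm_smul, Real.norm_of_nonneg (by positivity), inv_mul_le_iff₀ (by positivity)]
    linarith
  have hsum : l / (l + 2 * e) + 2 * e / (l + 2 * e) = 1 := by field_simp
  refine (Phi_convex hs _ _ (by positivity) (by positivity) hsum).trans ?_
  have p1 : 0 ≤ l / (l + 2 * e) := by positivity
  have p2 : 0 ≤ 2 * e / (l + 2 * e) := by positivity
  nlinarith [mul_le_mul_of_nonneg_left hb p1, mul_le_mul_of_nonneg_left h2 p2]

lemma Phi_outer {d : ℕ} {s : ℝ} (hs : 0 ≤ s) {l e : ℝ} (he : 0 < e) (hle : 2 * e < l)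
    (a b : E d) (hb : Phi s (l⁻¹ • b) = 1 / 4 + s / 16) (hab : ‖a - b‖ < e) :
    1 / 4 + s / 16 < Phi s ((l - 2 * e)⁻¹ • a) := by
  by_contra hcon
  push Not at hcon
  have hl : 0 < l := by linarith
  have hl2 : 0 < l - 2 * e := by linarith
  have h1 : l⁻¹ • b = ((l - 2 * e) / l) • ((l - 2 * e)⁻¹ • a)
      + (2 * e / l) • ((2 * e)⁻¹ • (b - a)) := by
    rw [smul_smul, smul_smul]
    have e1 : (l - 2 * e) / l * (l - 2 * e)⁻¹ = l⁻¹ := by field_simp
    have e2 : 2 * e / l * (2 * e)⁻¹ = l⁻¹ := by field_simp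
    rw [e1, e2, ← smul_add]; congr 1; abel
  have h2 : Phi s ((2 * e)⁻¹ • (b - a)) < 1 / 4 + s / 16 := by
    apply Phi_lt_of_norm_lt hs
    rw [norm_smul, Real.norm_of_nonneg (by positivity), inv_mul_lt_iff₀ (by positivity),
      norm_sub_rev]
    linarith
  have hsum : (l - 2 * e) / l + 2 * e / l = 1 := by field_simp; ring
  have h3 := Phi_convex hs ((l - 2 * e)⁻¹ • a) ((2 * e)⁻¹ • (b - a)) (a := (l - 2 * e) / l)
    (b := 2 * e / l) (by positivity) (by positivity) hsum
  rw [← h1, hb] at h3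
  have p1 : 0 < (l - 2 * e) / l := by positivity
  have p2 : 0 < 2 * e / l := by positivity
  have q1 := mul_le_mul_of_nonneg_left hcon p1.le
  have q2 := mul_lt_mul_of_pos_left h2 p2
  have : ((l - 2 * e) / l + 2 * e / l) * (1 / 4 + s / 16) = 1 / 4 + s / 16 := by rw [hsum]; ring
  nlinarith

/-- the convex body -/
def K {d : ℕ} (s : ℝ) : Set (E d) := {x | Phi s x ≤ 1 / 4 + s / 16}

lemma smul_K {d : ℕ} (s : ℝ) {l : ℝ} (hl : 0 < l) :
    l • (K s : Set (E d)) = {x | Phi s (l⁻¹ • x) ≤ 1 / 4 + s / 16} := by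
  ext x
  rw [mem_smul_set_iff_inv_smul_mem₀ hl.ne']
  rfl

lemma volume_smul_K {d : ℕ} (s : ℝ) {l : ℝ} (hl : 0 < l) :
    volume {x : E d | Phi s (l⁻¹ • x) ≤ 1 / 4 + s / 16} = ENNReal.ofReal (l ^ d) * volume (K s : Set (E d)) := by
  rw [← smul_K s hl, Measure.addHaar_smul]
  simp [abs_of_pos (pow_pos hl d)]

/-- half-open cube -/
def cube (d : ℕ) : Set (E d) := {x | ∀ i, x i ∈ Ioc (-(1/2) : ℝ) (1/2)}

lemma measurePreserving_proj (d : ℕ) :
    MeasurePreserving (proj : E d → Torus d) (volume.restrict (cube d)) volume := by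
  have h1 : MeasurePreserving (fun (x : Fin d → ℝ) (i : Fin d) => ((x i : ℝ) : UnitAddCircle))
      (Measure.pi fun _ : Fin d => (volume : Measure ℝ).restrict (Ioc (-(1/2) : ℝ) (1/2)))
      (Measure.pi fun _ : Fin d => (volume : Measure UnitAddCircle)) := by
    apply measurePreserving_pi (fun _ : Fin d => (volume : Measure ℝ).restrict (Ioc (-(1/2) : ℝ) (1/2)))
      (fun _ : Fin d => (volume : Measure UnitAddCircle))
      (f := fun i (t : ℝ) => ((t : ℝ) : UnitAddCircle))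
    intro i
    have := UnitAddCircle.measurePreserving_mk (-(1/2))
    have e : (-(1/2) : ℝ) + 1 = 1/2 := by norm_num
    rw [e] at this
    exact this
  rw [← Measure.restrict_pi_pi] at h1
  have h2 : MeasurePreserving (WithLp.ofLp : E d → (Fin d → ℝ)) (volume.restrict (cube d))
      (volume.restrict (univ.pi fun _ : Fin d => Ioc (-(1/2) : ℝ) (1/2))) := by
    have h3 := (PiLp.volume_preserving_ofLp (Fin d)).restrict_preimage
      (s := univ.pi fun _ : Fin d => Ioc (-(1/2) : ℝ) (1/2))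
      (MeasurableSet.univ_pi fun _ => measurableSet_Ioc)
    have e : cube d = (WithLp.ofLp : E d → (Fin d → ℝ)) ⁻¹'
        (univ.pi fun _ : Fin d => Ioc (-(1/2) : ℝ) (1/2)) := by
      ext x; simp [cube]
    rw [e]
    exact h3
  exact h1.comp h2

/-- the vector of circle norms -/
noncomputable def N {d : ℕ} (y : Torus d) : E d := WithLp.toLp 2 (fun i => ‖y i‖)

lemma N_apply {d : ℕ} (y : Torus d) (i : Fin d) : N y i = ‖y i‖ := rfl

lemma norm_N_sub_le {d : ℕ} (x y : Torus d) : ‖N x - N y‖ ≤ flatDist x y := by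
  rw [EuclideanSpace.norm_eq]
  apply Real.sqrt_le_sqrt
  refine Finset.sum_le_sum fun i _ => ?_
  have : ‖(N x - N y) i‖ ≤ ‖x i - y i‖ := by
    simp only [PiLp.sub_apply, N_apply]
    exact abs_norm_sub_norm_le _ _
  exact pow_le_pow_left₀ (norm_nonneg _) this 2

lemma continuous_N {d : ℕ} : Continuous (N : Torus d → E d) := by
  unfold N
  fun_prop

lemma Phi_neg_abs {d : ℕ} (s l : ℝ) (x y : E d) (h : ∀ i, |x i| = |y i|) :
    Phi s (l • x) = Phi s (l • y) := by
  unfold Phi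
  refine Finset.sum_congr rfl fun i _ => ?_
  have h1 : x i ^ 2 = y i ^ 2 := by rw [← sq_abs, h i, sq_abs]
  have h2 : x i ^ 4 = y i ^ 4 := by
    calc x i ^ 4 = (x i ^ 2) ^ 2 := by ring
      _ = y i ^ 4 := by rw [h1]; ring
  simp only [PiLp.smul_apply, smul_eq_mul, mul_pow, h1, h2]

/-- the domain -/
def Dom {d : ℕ} (s l : ℝ) : Set (Torus d) := {y | Phi s (l⁻¹ • N y) ≤ 1 / 4 + s / 16}

lemma continuous_PhiN {d : ℕ} (s l : ℝ) : Continuous (fun y : Torus d => Phi s (l⁻¹ • N y)) := by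
  have h : Continuous (fun y : Torus d => l⁻¹ • N y) := Continuous.const_smul (g := fun y : Torus d => N y) continuous_N l⁻¹
  exact (continuous_Phi s).comp h

lemma isClosed_Dom {d : ℕ} (s l : ℝ) : IsClosed (Dom s l : Set (Torus d)) := by
  apply isClosed_le
  · exact continuous_PhiN s l
  · exact continuous_const

lemma frontier_Dom {d : ℕ} (s l : ℝ) (y : Torus d) (hy : y ∈ frontier (Dom s l : Set (Torus d))) :
    Phi s (l⁻¹ • N y) = 1 / 4 + s / 16 := by
  have := frontier_le_subset_eq (f := fun y : Torus d => Phi s (l⁻¹ • N y)) (g := fun _ => 1 / 4 + s / 16)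
    (continuous_PhiN s l) continuous_const
  exact this hy

lemma volume_Dom {d : ℕ} {s l : ℝ} (hs : 0 ≤ s) (hl : 0 < l) (hl1 : l < 1) :
    volume (Dom s l : Set (Torus d)) = ENNReal.ofReal (l ^ d) * volume (K s : Set (E d)) := by
  rw [← volume_smul_K s hl, ← (measurePreserving_proj d).measure_preimage
    (isClosed_Dom s l).measurableSet.nullMeasurableSet, Measure.restrict_apply]
  · congr 1
    ext x
    simp only [mem_inter_iff, mem_preimage, mem_ofPred_eq, Dom]
    constructor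
    · rintro ⟨h1, h2⟩
      rw [Phi_neg_abs s l⁻¹ x (N (proj x))]
      · exact h1
      · intro i
        rw [N_apply, proj, abs_norm, (AddCircle.norm_coe_eq_abs_iff 1 one_ne_zero).2]
        have := h2 i
        rw [abs_one, abs_le]
        exact ⟨by linarith [this.1], this.2⟩
    · intro h
      have hx : ∀ i, |x i| ≤ l / 2 := by
        intro i
        have := abs_le_of_Phi_le hs _ h i
        simp only [PiLp.smul_apply, smul_eq_mul, abs_mul, abs_inv, abs_of_pos hl] at this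
        rw [inv_mul_le_iff₀ hl] at this
        linarith
      have hc : x ∈ cube d := by
        intro i
        have := abs_le.1 (hx i)
        constructor <;> linarith
      refine ⟨?_, hc⟩
      rw [Phi_neg_abs s l⁻¹ (N (proj x)) x]
      · exact h
      · intro i
        rw [N_apply, proj, abs_norm, (AddCircle.norm_coe_eq_abs_iff 1 one_ne_zero).2]
        rw [abs_one]
        have := hx i
        linarith
  · exact (isClosed_Dom s l).measurableSet.preimage (by
      apply Continuous.measurable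
      unfold proj
      fun_prop)

lemma nbhd_subset {d : ℕ} {s l e : ℝ} (hs : 0 ≤ s) (he : 0 < e) (hle : 2 * e < l) :
    nbhd e (frontier (Dom s l : Set (Torus d))) ⊆ Dom s (l + 2 * e) \ Dom s (l - 2 * e) := by
  rintro y ⟨p, hp, hyp⟩
  have hp' := frontier_Dom s l p hp
  have h1 : ‖N y - N p‖ < e := (norm_N_sub_le y p).trans_lt hyp
  constructor
  · exact Phi_inner hs (by linarith) he (N y) (N p) hp'.le h1.le
  · intro h
    exact absurd (Phi_outer hs he hle (N y) (N p) hp' h1) (not_lt.2 h)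

lemma Dom_mono {d : ℕ} {s : ℝ} (hs : 0 ≤ s) {l l' : ℝ} (hl : 0 < l) (hll : l ≤ l') :
    (Dom s l : Set (Torus d)) ⊆ Dom s l' := by
  intro y hy
  have hy' : Phi s (l⁻¹ • N y) ≤ 1 / 4 + s / 16 := hy
  show Phi s (l'⁻¹ • N y) ≤ 1 / 4 + s / 16
  refine le_trans ?_ hy'
  unfold Phi
  have hinv : l'⁻¹ ≤ l⁻¹ := inv_anti₀ hl hll
  have h0 : 0 ≤ l'⁻¹ := inv_nonneg.2 (hl.le.trans hll)
  refine Finset.sum_le_sum fun i _ => ?_
  simp only [PiLp.smul_apply, smul_eq_mul, mul_pow]
  have h2 : l'⁻¹ ^ 2 ≤ l⁻¹ ^ 2 := pow_le_pow_left₀ h0 hinv 2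
  have h4 : l'⁻¹ ^ 4 ≤ l⁻¹ ^ 4 := pow_le_pow_left₀ h0 hinv 4
  have a2 : 0 ≤ (N y i) ^ 2 := by positivity
  have a4 : 0 ≤ (N y i) ^ 4 := by positivity
  have b2 := mul_le_mul_of_nonneg_right h2 a2
  have b4 := mul_le_mul_of_nonneg_left (mul_le_mul_of_nonneg_right h4 a4) hs
  linarith

lemma K_subset_closedBall {d : ℕ} {s : ℝ} (hs : 0 ≤ s) :
    (K s : Set (E d)) ⊆ closedBall 0 (√(1 / 4 + s / 16)) := by
  intro x hx
  rw [mem_closedBall_zero_iff]
  apply Real.le_sqrt_of_sq_le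
  exact (norm_sq_le_Phi hs x).trans hx

lemma volume_K_lt_top {d : ℕ} {s : ℝ} (hs : 0 ≤ s) : volume (K s : Set (E d)) < ⊤ :=
  (measure_mono (K_subset_closedBall hs)).trans_lt measure_closedBall_lt_top

lemma boundaryVol_le {d : ℕ} {s l : ℝ} (hs : 0 ≤ s) (hl : 0 < l) (hl1 : l < 1) :
    boundaryVol (Dom s l : Set (Torus d)) ≤
      ENNReal.ofReal (2 * d * l ^ (d - 1) * (volume (K s : Set (E d))).toReal) := by
  set v : ℝ := (volume (K s : Set (E d))).toReal with hv
  have hK : volume (K s : Set (E d)) = ENNReal.ofReal v := by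
    rw [hv, ENNReal.ofReal_toReal (volume_K_lt_top hs).ne]
  have hv0 : 0 ≤ v := ENNReal.toReal_nonneg
  -- the comparison function
  have hlim : Tendsto (fun e : ℝ => ENNReal.ofReal
      (((l + 2 * e) ^ d - (l - 2 * e) ^ d) / (2 * e) * v)) (𝓝[>] 0)
      (𝓝 (ENNReal.ofReal (2 * d * l ^ (d - 1) * v))) := by
    apply ENNReal.tendsto_ofReal
    apply Tendsto.mul_const
    have hd : HasDerivAt (fun e : ℝ => (l + 2 * e) ^ d - (l - 2 * e) ^ d) (4 * d * l ^ (d - 1)) 0 := by
      have h1 : HasDerivAt (fun e : ℝ => (l + 2 * e) ^ d) (d * (l + 2 * 0) ^ (d - 1) * (2 * 1)) 0 := by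
        exact (((hasDerivAt_id (0 : ℝ)).const_mul 2).const_add l).pow d
      have h2 : HasDerivAt (fun e : ℝ => (l - 2 * e) ^ d) (d * (l - 2 * 0) ^ (d - 1) * (-(2 * 1))) 0 := by
        exact (((hasDerivAt_id (0 : ℝ)).const_mul 2).const_sub l).pow d
      have e0 : 4 * (d : ℝ) * l ^ (d - 1) = d * (l + 2 * 0) ^ (d - 1) * (2 * 1)
          - d * (l - 2 * 0) ^ (d - 1) * (-(2 * 1)) := by
        rw [mul_zero, add_zero, sub_zero]; ring
      rw [e0]
      exact h1.sub h2
    have hs := hasDerivAt_iff_tendsto_slope.1 hd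
    have hs2 := (hs.mono_left (nhdsGT_le_nhdsNE 0)).mul_const (1 / 2 : ℝ)
    have e1 : 4 * (d : ℝ) * l ^ (d - 1) * (1 / 2) = 2 * d * l ^ (d - 1) := by ring
    rw [e1] at hs2
    refine hs2.congr fun e => ?_
    rw [slope_def_field]
    simp only [mul_zero, add_zero, sub_zero, sub_self]
    rw [div_mul_div_comm, mul_one, mul_comm e 2]
  rw [← hlim.limsup_eq]
  refine limsup_le_limsup ?_ (by isBoundedDefault) (by isBoundedDefault)
  have hpos : ∀ᶠ e : ℝ in 𝓝[>] 0, 0 < e := self_mem_nhdsWithin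
  have hlt : ∀ᶠ e : ℝ in 𝓝[>] 0, e < min (l / 2) ((1 - l) / 2) :=
    (gt_mem_nhds (by apply lt_min <;> linarith)).filter_mono nhdsWithin_le_nhds
  filter_upwards [hpos, hlt] with e he hlt
  have he1 : 2 * e < l := by have := hlt.trans_le (min_le_left _ _); linarith
  have he2 : l + 2 * e < 1 := by have := hlt.trans_le (min_le_right _ _); linarith
  have hl2 : 0 < l - 2 * e := by linarith
  have hsub := nbhd_subset (d := d) hs he he1
  have hm := measure_mono (μ := volume) hsub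
  have hfin : volume (Dom s (l - 2 * e) : Set (Torus d)) ≠ ⊤ := measure_ne_top _ _
  rw [measure_sdiff (Dom_mono hs hl2 (by linarith))
    (isClosed_Dom s _).measurableSet.nullMeasurableSet hfin,
    volume_Dom hs (by linarith) he2, volume_Dom hs hl2 (by linarith), hK,
    ← ENNReal.ofReal_mul (by positivity), ← ENNReal.ofReal_mul (by positivity),
    ← ENNReal.ofReal_sub _ (by positivity)] at hm
  calc volume (nbhd e (frontier (Dom s l : Set (Torus d)))) / ENNReal.ofReal (2 * e)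
      ≤ ENNReal.ofReal ((l + 2 * e) ^ d * v - (l - 2 * e) ^ d * v) / ENNReal.ofReal (2 * e) :=
        ENNReal.div_le_div_right hm _
    _ = ENNReal.ofReal (((l + 2 * e) ^ d - (l - 2 * e) ^ d) / (2 * e) * v) := by
        rw [← ENNReal.ofReal_div_of_pos (by linarith)]
        congr 1; ring

lemma norm_proj_eq {d : ℕ} (x : E d) (n : Fin d → ℤ) (i : Fin d) (h : |x i - n i| ≤ 1 / 2) :
    N (proj x) i = |x i - n i| := by
  rw [N_apply, proj]
  have h1 : ((x i : ℝ) : UnitAddCircle) = ((x i - n i : ℝ) : UnitAddCircle) := by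
    rw [AddCircle.coe_sub]
    have : (((n i : ℤ) : ℝ) : UnitAddCircle) = 0 := by
      have := AddCircle.coe_eq_zero_iff (1 : ℝ) (x := ((n i : ℤ) : ℝ))
      rw [this]
      exact ⟨n i, by simp⟩
    rw [this, sub_zero]
  rw [h1, (AddCircle.norm_coe_eq_abs_iff 1 one_ne_zero).2]
  rw [abs_one]; exact h

lemma Dom_smooth {d : ℕ} {s l : ℝ} (hs : 0 ≤ s) (hl : 0 < l) (hl1 : l < 1) :
    IsSmoothDomain (Dom s l : Set (Torus d)) := by
  refine ⟨isClosed_Dom s l, fun p hp => ?_⟩
  have hp' := frontier_Dom s l _ hp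
  set n : Fin d → ℤ := fun i => round (p i) with hn
  set nv : E d := WithLp.toLp 2 (fun i => (n i : ℝ)) with hnv
  have hN : ∀ i, N (proj p) i = |p i - n i| := by
    intro i
    exact norm_proj_eq p n i (abs_sub_round (p i))
  have hpl : ∀ i, |p i - n i| ≤ l / 2 := by
    intro i
    have := abs_le_of_Phi_le hs _ hp'.le i
    simp only [PiLp.smul_apply, smul_eq_mul, abs_mul, abs_inv, abs_of_pos hl] at this
    rw [inv_mul_le_iff₀ hl, hN, abs_abs] at this
    linarith
  refine ⟨{x | ∀ i, |x i - n i| < 1 / 2}, ?_, fun x => Phi s (l⁻¹ • (x - nv)) - (1 / 4 + s / 16),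
    ?_, ?_, ?_, ?_⟩
  · apply IsOpen.mem_nhds
    · have : {x : E d | ∀ i, |x i - n i| < 1 / 2} = ⋂ i, {x : E d | |x i - n i| < 1 / 2} := by
        ext x; simp
      rw [this]
      apply isOpen_iInter_of_finite
      intro i
      exact isOpen_lt (by fun_prop) continuous_const
    · intro i
      have := hpl i
      show |p i - n i| < 1 / 2
      linarith
  · unfold Phi
    have : ∀ i : Fin d, ContDiff ℝ ∞ (fun x : E d => (l⁻¹ • (x - nv)) i) := by
      intro i
      simp only [PiLp.smul_apply, PiLp.sub_apply, smul_eq_mul]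
      fun_prop
    fun_prop
  · show Phi s (l⁻¹ • (p - nv)) - (1 / 4 + s / 16) = 0
    rw [Phi_neg_abs s l⁻¹ (p - nv) (N (proj p)), hp', sub_self]
    intro i
    rw [hN, abs_abs]
    rfl
  · intro h0
    -- derivative in the direction `p - nv`
    set u : E d := l⁻¹ • (p - nv) with hu
    have hPu : Phi s u = 1 / 4 + s / 16 := by
      rw [hu, Phi_neg_abs s l⁻¹ (p - nv) (N (proj p)), hp']
      intro i
      rw [hN, abs_abs]
      rfl
    have hd : DifferentiableAt ℝ (fun x : E d => Phi s (l⁻¹ • (x - nv)) - (1 / 4 + s / 16)) p := by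
      unfold Phi
      have : ∀ i : Fin d, DifferentiableAt ℝ (fun x : E d => (l⁻¹ • (x - nv)) i) p := by
        intro i
        simp only [PiLp.smul_apply, PiLp.sub_apply, smul_eq_mul]
        fun_prop
      fun_prop
    have h1 : HasDerivAt (fun t : ℝ => p + t • (p - nv)) (p - nv) 0 := by
      have := ((hasDerivAt_id (0 : ℝ)).smul_const (p - nv)).const_add p
      simpa using this
    have h2 : HasDerivAt (fun t : ℝ => Phi s (l⁻¹ • ((p + t • (p - nv)) - nv)) - (1 / 4 + s / 16))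
        0 0 := by
      have h3 := hd.hasFDerivAt
      rw [h0] at h3
      have h3' : HasFDerivAt (fun x : E d => Phi s (l⁻¹ • (x - nv)) - (1 / 4 + s / 16))
        (0 : E d →L[ℝ] ℝ) (p + (0 : ℝ) • (p - nv)) := by simpa using h3
      have := h3'.comp_hasDerivAt (0 : ℝ) h1
      exact this
    set A : ℝ := ∑ i, u i ^ 2 with hA
    set B : ℝ := ∑ i, u i ^ 4 with hB
    have h4 : (fun t : ℝ => Phi s (l⁻¹ • ((p + t • (p - nv)) - nv)) - (1 / 4 + s / 16))
        = fun t : ℝ => (1 + t) ^ 2 * A + s * ((1 + t) ^ 4 * B) - (1 / 4 + s / 16) := by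
      funext t
      congr 1
      have e1 : l⁻¹ • ((p + t • (p - nv)) - nv) = (1 + t) • u := by
        rw [hu]; module
      rw [e1, hA, hB, Finset.mul_sum, Finset.mul_sum, Finset.mul_sum, ← Finset.sum_add_distrib]
      unfold Phi
      refine Finset.sum_congr rfl fun i _ => ?_
      simp only [PiLp.smul_apply, smul_eq_mul, mul_pow]
    rw [h4] at h2
    have h5 : HasDerivAt (fun t : ℝ => (1 + t) ^ 2 * A + s * ((1 + t) ^ 4 * B) - (1 / 4 + s / 16))
        (2 * A + s * (4 * B)) 0 := by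
      have a0 : HasDerivAt (fun t : ℝ => 1 + t) 1 0 := (hasDerivAt_id (0 : ℝ)).const_add 1
      have a1 : HasDerivAt (fun t : ℝ => (1 + t) ^ 2) 2 0 := by
        have := a0.pow 2
        norm_num at this
        exact this
      have a2 : HasDerivAt (fun t : ℝ => (1 + t) ^ 4) 4 0 := by
        have := a0.pow 4
        norm_num at this
        exact this
      exact ((a1.mul_const A).add ((a2.mul_const B).const_mul s)).sub_const (1 / 4 + s / 16)
    have h6 := h2.unique h5
    have hAB : A + s * B = 1 / 4 + s / 16 := by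
      rw [← hPu, hA, hB, Finset.mul_sum, ← Finset.sum_add_distrib]; rfl
    have hB0 : 0 ≤ B := Finset.sum_nonneg fun i _ => by positivity
    nlinarith [mul_nonneg hs hB0]
  · intro x hx
    show Phi s (l⁻¹ • N (proj x)) ≤ 1 / 4 + s / 16 ↔ _
    rw [sub_nonpos, Phi_neg_abs s l⁻¹ (N (proj x)) (x - nv)]
    intro i
    rw [norm_proj_eq x n i (hx i).le, abs_abs]
    rfl

lemma continuous_proj {d : ℕ} : Continuous (proj : E d → Torus d) := by
  unfold proj
  fun_prop

lemma Dom_connected {d : ℕ} {s l : ℝ} (hs : 0 ≤ s) (hl : 0 < l) (hl1 : l < 1) :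
    IsConnected (Dom s l : Set (Torus d)) := by
  have hC : IsConnected {x : E d | Phi s (l⁻¹ • x) ≤ 1 / 4 + s / 16} := by
    constructor
    · refine ⟨0, ?_⟩
      show Phi s (l⁻¹ • (0 : E d)) ≤ _
      rw [smul_zero]
      have := Phi_le_of_norm_le hs (0 : E d) (by rw [norm_zero]; norm_num)
      exact this
    · apply Convex.isPreconnected
      intro x hx y hy a b ha hb hab
      show Phi s (l⁻¹ • (a • x + b • y)) ≤ _
      have e : l⁻¹ • (a • x + b • y) = a • (l⁻¹ • x) + b • (l⁻¹ • y) := by module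
      rw [e]
      refine (Phi_convex hs _ _ ha hb hab).trans ?_
      have hx' : Phi s (l⁻¹ • x) ≤ 1 / 4 + s / 16 := hx
      have hy' : Phi s (l⁻¹ • y) ≤ 1 / 4 + s / 16 := hy
      have e2 : (a + b) * (1 / 4 + s / 16) = 1 / 4 + s / 16 := by rw [hab, one_mul]
      nlinarith [mul_le_mul_of_nonneg_left hx' ha, mul_le_mul_of_nonneg_left hy' hb]
  have : (Dom s l : Set (Torus d)) = proj '' {x : E d | Phi s (l⁻¹ • x) ≤ 1 / 4 + s / 16} := by
    ext y
    constructor
    · intro hy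
      have hex : ∀ i, ∃ t : ℝ, ((t : ℝ) : UnitAddCircle) = y i ∧ |t| = ‖y i‖ := by
        intro i
        obtain ⟨t, ht⟩ := QuotientAddGroup.mk_surjective (y i)
        refine ⟨t - round t, ?_, ?_⟩
        · rw [AddCircle.coe_sub]
          have : (((round t : ℤ) : ℝ) : UnitAddCircle) = 0 := by
            rw [AddCircle.coe_eq_zero_iff (1 : ℝ)]
            exact ⟨round t, by simp⟩
          rw [this, sub_zero]; exact ht
        · rw [← ht]
          exact UnitAddCircle.norm_eq.symm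
      choose t ht1 ht2 using hex
      refine ⟨WithLp.toLp 2 t, ?_, ?_⟩
      · show Phi s (l⁻¹ • WithLp.toLp 2 t) ≤ _
        rw [Phi_neg_abs s l⁻¹ (WithLp.toLp 2 t) (N y)]
        · exact hy
        · intro i
          rw [N_apply, abs_norm]
          exact ht2 i
      · funext i
        exact ht1 i
    · rintro ⟨x, hx, rfl⟩
      show Phi s (l⁻¹ • N (proj x)) ≤ _
      have hx2 : ∀ i, |x i| ≤ l / 2 := by
        intro i
        have := abs_le_of_Phi_le hs _ hx i
        simp only [PiLp.smul_apply, smul_eq_mul, abs_mul, abs_inv, abs_of_pos hl] at this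
        rw [inv_mul_le_iff₀ hl] at this
        linarith
      rw [Phi_neg_abs s l⁻¹ (N (proj x)) x]
      · exact hx
      · intro i
        rw [N_apply, proj, abs_norm, (AddCircle.norm_coe_eq_abs_iff 1 one_ne_zero).2]
        rw [abs_one]
        have := hx2 i
        linarith
  rw [this]
  exact hC.image _ continuous_proj.continuousOn

lemma omega_eq {m : ℕ} (hm : 1 ≤ m) : omega m = √Real.pi ^ m / Real.Gamma (m / 2 + 1) := by
  have : Nonempty (Fin m) := ⟨⟨0, hm⟩⟩
  unfold omega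
  rw [EuclideanSpace.volume_ball]
  simp only [ENNReal.ofReal_one, one_pow, one_mul, Fintype.card_fin]
  rw [ENNReal.toReal_ofReal]
  have : 0 < Real.Gamma ((m : ℝ) / 2 + 1) := Real.Gamma_pos_of_pos (by positivity)
  positivity

lemma omega_pos {m : ℕ} (hm : 1 ≤ m) : 0 < omega m := by
  rw [omega_eq hm]
  have : 0 < Real.Gamma ((m : ℝ) / 2 + 1) := Real.Gamma_pos_of_pos (by positivity)
  have hp : 0 < √Real.pi := Real.sqrt_pos.2 Real.pi_pos
  positivity

lemma volume_ball_eq {m : ℕ} (hm : 1 ≤ m) {r : ℝ} (hr : 0 ≤ r) :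
    volume (ball (0 : EuclideanSpace ℝ (Fin m)) r) = ENNReal.ofReal (omega m * r ^ m) := by
  have : Nonempty (Fin m) := ⟨⟨0, hm⟩⟩
  rw [EuclideanSpace.volume_ball, omega_eq hm, Fintype.card_fin, ← ENNReal.ofReal_pow hr,
    ← ENNReal.ofReal_mul (by positivity), mul_comm]

lemma volume_closedBall_eq {m : ℕ} (hm : 1 ≤ m) {r : ℝ} (hr : 0 ≤ r) :
    volume (closedBall (0 : EuclideanSpace ℝ (Fin m)) r) = ENNReal.ofReal (omega m * r ^ m) := by
  have : Nonempty (Fin m) := ⟨⟨0, hm⟩⟩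
  rw [EuclideanSpace.volume_closedBall, omega_eq hm, Fintype.card_fin, ← ENNReal.ofReal_pow hr,
    ← ENNReal.ofReal_mul (by positivity), mul_comm]

lemma omega_one : omega 1 = 2 := by
  rw [omega_eq le_rfl]
  have : ((1 : ℕ) : ℝ) / 2 + 1 = 1 / 2 + 1 := by norm_num
  rw [this, Real.Gamma_add_one (by norm_num), Real.Gamma_one_half_eq]
  have hp : 0 < √Real.pi := Real.sqrt_pos.2 Real.pi_pos
  field_simp

lemma omega_two : omega 2 = Real.pi := by
  rw [omega_eq (by norm_num)]
  have : ((2 : ℕ) : ℝ) / 2 + 1 = 2 := by norm_num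
  rw [this, Real.Gamma_two, Real.sq_sqrt Real.pi_pos.le, div_one]

lemma omega_add_two {m : ℕ} (hm : 1 ≤ m) : omega (m + 2) = omega m * (2 * Real.pi / (m + 2)) := by
  rw [omega_eq hm, omega_eq (by omega)]
  have : ((m + 2 : ℕ) : ℝ) / 2 + 1 = ((m : ℝ) / 2 + 1) + 1 := by push_cast; ring
  have hG : 0 < Real.Gamma ((m : ℝ) / 2 + 1) := Real.Gamma_pos_of_pos (by positivity)
  rw [this, Real.Gamma_add_one (by positivity), pow_add, Real.sq_sqrt Real.pi_pos.le]
  field_simp

/-- log-convexity bound -/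
lemma omega_succ_sq {m : ℕ} (hm : 1 ≤ m) :
    omega (m + 1) ^ 2 ≤ omega m ^ 2 * (2 * Real.pi / (m + 1)) := by
  rw [omega_eq hm, omega_eq (by omega)]
  set x : ℝ := (m : ℝ) / 2 + 1 with hx
  have hx0 : 0 < x := by positivity
  have e1 : ((m + 1 : ℕ) : ℝ) / 2 + 1 = x + 1 / 2 := by push_cast; rw [hx]; ring
  have hG1 : 0 < Real.Gamma x := Real.Gamma_pos_of_pos hx0
  have hG2 : 0 < Real.Gamma (x + 1 / 2) := Real.Gamma_pos_of_pos (by positivity)
  have hxh : 0 < x - 1 / 2 := by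
    have : (1 : ℝ) ≤ m := by exact_mod_cast hm
    rw [hx]; linarith
  have hG3 : 0 < Real.Gamma (x - 1 / 2) := Real.Gamma_pos_of_pos hxh
  have h1 : Real.Gamma x ^ 2 ≤ Real.Gamma (x - 1 / 2) * Real.Gamma (x + 1 / 2) := by
    have := Real.Gamma_mul_add_mul_le_rpow_Gamma_mul_rpow_Gamma hxh
      (show 0 < x + 1 / 2 by positivity) (show (0 : ℝ) < 1 / 2 by norm_num)
      (show (0 : ℝ) < 1 / 2 by norm_num) (by norm_num)
    have e : (1 / 2 : ℝ) * (x - 1 / 2) + 1 / 2 * (x + 1 / 2) = x := by ring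
    rw [e, ← Real.sqrt_eq_rpow, ← Real.sqrt_eq_rpow] at this
    calc Real.Gamma x ^ 2 ≤ (√(Real.Gamma (x - 1 / 2)) * √(Real.Gamma (x + 1 / 2))) ^ 2 :=
          pow_le_pow_left₀ hG1.le this 2
      _ = Real.Gamma (x - 1 / 2) * Real.Gamma (x + 1 / 2) := by
          rw [mul_pow, Real.sq_sqrt hG3.le, Real.sq_sqrt hG2.le]
  have h2 : Real.Gamma (x + 1 / 2) = (x - 1 / 2) * Real.Gamma (x - 1 / 2) := by
    have : x + 1 / 2 = (x - 1 / 2) + 1 := by ring
    rw [this, Real.Gamma_add_one hxh.ne']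
  rw [e1, div_pow, div_pow, ← pow_mul, ← pow_mul, show (m + 1) * 2 = m * 2 + 2 by ring, pow_add,
    Real.sq_sqrt Real.pi_pos.le]
  have hp : 0 < √Real.pi := Real.sqrt_pos.2 Real.pi_pos
  have hP : 0 < √Real.pi ^ (m * 2) := by positivity
  have hm1 : (0 : ℝ) < m + 1 := by positivity
  rw [div_mul_div_comm, div_le_div_iff₀ (by positivity) (by positivity)]
  have e3 : x - 1 / 2 = (m + 1) / 2 := by rw [hx]; ring
  have h4 : Real.Gamma x ^ 2 * (m + 1) ≤ 2 * Real.Gamma (x + 1 / 2) ^ 2 := by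
    calc Real.Gamma x ^ 2 * (m + 1) ≤ (Real.Gamma (x - 1 / 2) * Real.Gamma (x + 1 / 2)) * (m + 1) :=
          mul_le_mul_of_nonneg_right h1 hm1.le
      _ = 2 * Real.Gamma (x + 1 / 2) ^ 2 := by
          rw [sq, h2, e3]; ring
  have := mul_le_mul_of_nonneg_left h4 (show 0 ≤ √Real.pi ^ (m * 2) * Real.pi by positivity)
  nlinarith

lemma one_add_inv_pow_lt {m : ℕ} (hm : 1 ≤ m) : ((m : ℝ) + 1) ^ m ≤ Real.exp 1 * (m : ℝ) ^ m := by
  have hm0 : (0 : ℝ) < m := by exact_mod_cast hm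
  have h1 : (1 + 1 / (m : ℝ)) ≤ Real.exp (1 / m) := by
    have := Real.add_one_le_exp (1 / (m : ℝ)); linarith
  have h2 : (1 + 1 / (m : ℝ)) ^ m ≤ Real.exp 1 := by
    calc (1 + 1 / (m : ℝ)) ^ m ≤ Real.exp (1 / m) ^ m := pow_le_pow_left₀ (by positivity) h1 m
      _ = Real.exp 1 := by
        rw [← Real.exp_nat_mul]; congr 1; field_simp
  have h3 : ((m : ℝ) + 1) ^ m = (1 + 1 / (m : ℝ)) ^ m * (m : ℝ) ^ m := by
    rw [← mul_pow]; congr 1; field_simp
  rw [h3]
  exact mul_le_mul_of_nonneg_right h2 (by positivity)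

lemma step_general {m : ℕ} (hm : 1 ≤ m) {c : ℝ} (hc : 0 ≤ c)
    (h : 46.43 * ((m : ℝ) + 1) < c ^ 2) :
    omega (m + 1) * ((m : ℝ) + 1) ^ (m + 1) < c * (omega m * (m : ℝ) ^ m) := by
  have hm0 : (0 : ℝ) < m := by exact_mod_cast hm
  have ho := omega_pos hm
  have ho1 := omega_pos (show 1 ≤ m + 1 by omega)
  have h1 := omega_succ_sq hm
  have h2 := one_add_inv_pow_lt hm
  have he : Real.exp 1 ^ 2 < 7.38906 := by
    have := Real.exp_one_lt_d9
    have h0 := Real.exp_pos 1
    nlinarith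
  have hpi := Real.pi_lt_d6
  have hpi0 := Real.pi_pos
  have hpe : 2 * Real.pi * Real.exp 1 ^ 2 < 46.43 := by
    have h0 : 0 < Real.exp 1 ^ 2 := by positivity
    nlinarith
  apply lt_of_pow_lt_pow_left₀ 2 (by positivity)
  have hmm : 0 < (m : ℝ) ^ m := by positivity
  calc (omega (m + 1) * ((m : ℝ) + 1) ^ (m + 1)) ^ 2
      = omega (m + 1) ^ 2 * (((m : ℝ) + 1) ^ m) ^ 2 * ((m : ℝ) + 1) ^ 2 := by rw [pow_succ]; ring
    _ ≤ (omega m ^ 2 * (2 * Real.pi / (m + 1))) * (Real.exp 1 * (m : ℝ) ^ m) ^ 2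
        * ((m : ℝ) + 1) ^ 2 := by
        apply mul_le_mul_of_nonneg_right _ (by positivity)
        apply mul_le_mul h1 (pow_le_pow_left₀ (by positivity) h2 2) (by positivity) (by positivity)
    _ = (2 * Real.pi * Real.exp 1 ^ 2) * ((m : ℝ) + 1) * (omega m * (m : ℝ) ^ m) ^ 2 := by
        field_simp
    _ < c ^ 2 * (omega m * (m : ℝ) ^ m) ^ 2 := by
        apply mul_lt_mul_of_pos_right _ (by positivity)
        have : 0 < (m : ℝ) + 1 := by positivity
        nlinarith
    _ = (c * (omega m * (m : ℝ) ^ m)) ^ 2 := by ring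

lemma omega_4 : omega 4 = Real.pi ^ 2 / 2 := by
  rw [omega_add_two (by norm_num), omega_two]; push_cast; ring
lemma omega_6 : omega 6 = Real.pi ^ 3 / 6 := by
  rw [omega_add_two (by norm_num), omega_4]; push_cast; ring
lemma omega_8 : omega 8 = Real.pi ^ 4 / 24 := by
  rw [omega_add_two (by norm_num), omega_6]; push_cast; ring
lemma omega_10 : omega 10 = Real.pi ^ 5 / 120 := by
  rw [omega_add_two (by norm_num), omega_8]; push_cast; ring
lemma omega_3 : omega 3 = 4 * Real.pi / 3 := by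
  rw [omega_add_two (by norm_num), omega_one]; push_cast; ring
lemma omega_5 : omega 5 = 8 * Real.pi ^ 2 / 15 := by
  rw [omega_add_two (by norm_num), omega_3]; push_cast; ring
lemma omega_7 : omega 7 = 16 * Real.pi ^ 3 / 105 := by
  rw [omega_add_two (by norm_num), omega_5]; push_cast; ring
lemma omega_9 : omega 9 = 32 * Real.pi ^ 4 / 945 := by
  rw [omega_add_two (by norm_num), omega_7]; push_cast; ring
lemma omega_11 : omega 11 = 64 * Real.pi ^ 5 / 10395 := by
  rw [omega_add_two (by norm_num), omega_9]; push_cast; ring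

lemma step_all {m d : ℕ} (hm : 1 ≤ m) (hmd : m < d) (hd : 10 ≤ d) :
    omega (m + 1) * ((m : ℝ) + 1) ^ (m + 1) < 2 * d * (omega m * (m : ℝ) ^ m) := by
  have hd' : (10 : ℝ) ≤ d := by exact_mod_cast hd
  have hmd' : (m : ℝ) + 1 ≤ d := by exact_mod_cast hmd
  have hm1 : (1 : ℝ) ≤ m := by exact_mod_cast hm
  have hpi := Real.pi_pos
  have hpi4 : 0 < Real.pi ^ 4 := by positivity
  have hpi5 : 0 < Real.pi ^ 5 := by positivity
  have hpid : Real.pi < 3.141593 := Real.pi_lt_d6
  rcases lt_or_ge m 8 with h | h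
  · apply step_general hm (by positivity)
    have h7 : (m : ℝ) ≤ 7 := by exact_mod_cast (by omega : m ≤ 7)
    nlinarith
  · rcases lt_or_ge m 11 with h' | h'
    · have hpos : 0 < omega m * (m : ℝ) ^ m := by
        have := omega_pos hm
        positivity
      interval_cases m
      · have : omega (8 + 1) * ((8 : ℕ) + 1 : ℝ) ^ (8 + 1) < 20 * (omega 8 * ((8 : ℕ) : ℝ) ^ 8) := by
          rw [omega_9, omega_8]; push_cast; norm_num; nlinarith
        nlinarith
      · have : omega (9 + 1) * ((9 : ℕ) + 1 : ℝ) ^ (9 + 1) < 20 * (omega 9 * ((9 : ℕ) : ℝ) ^ 9) := by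
          rw [omega_10, omega_9]; push_cast; norm_num; nlinarith
        nlinarith
      · have : omega (10 + 1) * ((10 : ℕ) + 1 : ℝ) ^ (10 + 1) < 22 * (omega 10 * ((10 : ℕ) : ℝ) ^ 10) := by
          rw [omega_11, omega_10]; push_cast; norm_num; nlinarith
        have h11 : (11 : ℝ) ≤ d := by exact_mod_cast hmd
        nlinarith
    · apply step_general hm (by positivity)
      have h11 : (11 : ℝ) ≤ m := by exact_mod_cast h'
      nlinarith

/-- `F m = ω_m (m/(2d))^m` -/
noncomputable def F (d m : ℕ) : ℝ := omega m * ((m : ℝ) / (2 * d)) ^ m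

lemma F_succ_lt {m d : ℕ} (hm : 1 ≤ m) (hmd : m < d) (hd : 10 ≤ d) : F d (m + 1) < F d m := by
  have h := step_all hm hmd hd
  have hd0 : (0 : ℝ) < 2 * d := by
    have : (10 : ℝ) ≤ d := by exact_mod_cast hd
    linarith
  unfold F
  rw [div_pow, div_pow, ← mul_div_assoc, ← mul_div_assoc, div_lt_div_iff₀ (by positivity) (by positivity)]
  push_cast
  have hP : 0 < (2 * (d : ℝ)) ^ m := by positivity
  calc omega (m + 1) * ((m : ℝ) + 1) ^ (m + 1) * (2 * (d : ℝ)) ^ m
      < (2 * d * (omega m * (m : ℝ) ^ m)) * (2 * (d : ℝ)) ^ m := mul_lt_mul_of_pos_right h hP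
    _ = omega m * (m : ℝ) ^ m * (2 * (d : ℝ)) ^ (m + 1) := by rw [pow_succ]; ring

lemma F_anti {m k d : ℕ} (hm : 1 ≤ m) (hmk : m ≤ k) (hkd : k ≤ d) (hd : 10 ≤ d) : F d k ≤ F d m := by
  induction k, hmk using Nat.le_induction with
  | base => exact le_rfl
  | succ n hn ih => exact (F_succ_lt (hm.trans hn) (by omega) hd).le.trans (ih (by omega))

lemma F_one {d : ℕ} (hd : 10 ≤ d) : F d 1 ≤ 1 / 2 := by
  have hd' : (10 : ℝ) ≤ d := by exact_mod_cast hd
  unfold F
  rw [omega_one]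
  push_cast
  rw [pow_one, mul_one_div, div_le_div_iff₀ (by positivity) (by norm_num)]
  linarith

lemma F_self {d : ℕ} (hd : 10 ≤ d) : F d d = omega d / 2 ^ d := by
  have hd' : (10 : ℝ) ≤ d := by exact_mod_cast hd
  unfold F
  have : (d : ℝ) / (2 * d) = 1 / 2 := by field_simp
  rw [this, div_pow, one_pow, mul_one_div]

lemma exists_s {d : ℕ} (hd : 10 ≤ d) :
    ∃ s : ℝ, 0 < s ∧ s < 1 ∧ omega d * √(1 / 4 + s / 16) ^ d < F d (d - 1) := by
  have h0 : omega d * √(1 / 4 + (0 : ℝ) / 16) ^ d < F d (d - 1) := by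
    have e : √(1 / 4 + (0 : ℝ) / 16) = 1 / 2 := by
      rw [show (1 / 4 + (0 : ℝ) / 16) = (1 / 2) ^ 2 by norm_num]
      exact Real.sqrt_sq (by norm_num)
    have h1 := F_succ_lt (m := d - 1) (d := d) (by omega) (by omega) hd
    rw [Nat.sub_add_cancel (by omega : 1 ≤ d), F_self hd] at h1
    rw [e, div_pow, one_pow, mul_one_div]
    exact h1
  have hc : Continuous (fun s : ℝ => omega d * √(1 / 4 + s / 16) ^ d) := by fun_prop
  have h2 : ∀ᶠ s : ℝ in 𝓝[>] 0, omega d * √(1 / 4 + s / 16) ^ d < F d (d - 1) :=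
    (hc.tendsto 0).eventually_lt_const h0 |>.filter_mono nhdsWithin_le_nhds
  have h3 : ∀ᶠ s : ℝ in 𝓝[>] 0, s < 1 := (gt_mem_nhds one_pos).filter_mono nhdsWithin_le_nhds
  have h4 : ∀ᶠ s : ℝ in 𝓝[>] 0, 0 < s := self_mem_nhdsWithin
  obtain ⟨s, hs⟩ := (h2.and (h3.and h4)).exists
  exact ⟨s, hs.2.2, hs.2.1, hs.1⟩

lemma volume_K_le {d : ℕ} (hd : 1 ≤ d) {s : ℝ} (hs : 0 ≤ s) :
    (volume (K s : Set (E d))).toReal ≤ omega d * √(1 / 4 + s / 16) ^ d := by
  have h1 := measure_mono (μ := volume) (K_subset_closedBall (d := d) hs)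
  rw [volume_closedBall_eq hd (Real.sqrt_nonneg _)] at h1
  exact ENNReal.toReal_le_of_le_ofReal (by have := omega_pos hd; positivity) h1

lemma lt_volume_K {d : ℕ} (hd : 2 ≤ d) {s : ℝ} (hs : 0 < s) (hs1 : s < 1) :
    omega d / 2 ^ d < (volume (K s : Set (E d))).toReal := by
  have hd' : (2 : ℝ) ≤ d := by exact_mod_cast hd
  set U : Set (E d) := {x | 1 / 2 < ‖x‖ ∧ Phi s x < 1 / 4 + s / 16} with hU
  have hUo : IsOpen U := by
    have : U = {x : E d | 1 / 2 < ‖x‖} ∩ {x : E d | Phi s x < 1 / 4 + s / 16} := by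
      ext x; rfl
    rw [this]
    exact (isOpen_lt continuous_const continuous_norm).inter
      (isOpen_lt (continuous_Phi s) continuous_const)
  have hUne : U.Nonempty := by
    set c : ℝ := (1 / 4 + s / 64) / d with hc
    have hc0 : 0 ≤ c := by positivity
    refine ⟨WithLp.toLp 2 (fun _ => √c), ?_, ?_⟩
    · have h1 : ‖(WithLp.toLp 2 (fun _ => √c) : E d)‖ ^ 2 = 1 / 4 + s / 64 := by
        rw [EuclideanSpace.real_norm_sq_eq]
        simp only [Real.sq_sqrt hc0, Finset.sum_const, Finset.card_univ, Fintype.card_fin,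
          nsmul_eq_mul]
        rw [hc]; field_simp
      have h2 : (1 / 2 : ℝ) ^ 2 < ‖(WithLp.toLp 2 (fun _ => √c) : E d)‖ ^ 2 := by
        rw [h1]; linarith
      exact lt_of_pow_lt_pow_left₀ 2 (norm_nonneg _) h2
    · have h4 : √c ^ 4 = c ^ 2 := by
        rw [show (4 : ℕ) = 2 * 2 from rfl, pow_mul, Real.sq_sqrt hc0]
      show Phi s (WithLp.toLp 2 (fun _ => √c) : E d) < 1 / 4 + s / 16
      unfold Phi
      simp only [Real.sq_sqrt hc0, h4, Finset.sum_const, Finset.card_univ, Fintype.card_fin,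
          nsmul_eq_mul]
      have h5 : (d : ℝ) * (c + s * c ^ 2) = (1 / 4 + s / 64) + s * ((1 / 4 + s / 64) ^ 2 / d) := by
        rw [hc]; field_simp
      rw [h5]
      have h6 : (1 / 4 + s / 64) ^ 2 / d ≤ (1 / 4 + s / 64) ^ 2 / 2 :=
        div_le_div_of_nonneg_left (by positivity) (by norm_num) hd'
      have h7 : (1 / 4 + s / 64) ^ 2 / 2 < 3 / 64 := by nlinarith
      nlinarith
  have hUpos : 0 < volume U := hUo.measure_pos volume hUne
  have hdisj : Disjoint (ball (0 : E d) (1 / 2)) U := by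
    rw [Set.disjoint_left]
    intro x hx hxU
    rw [mem_ball_zero_iff] at hx
    exact absurd hxU.1 (not_lt.2 hx.le)
  have hsub : ball (0 : E d) (1 / 2) ∪ U ⊆ K s := by
    rintro x (hx | hx)
    · rw [mem_ball_zero_iff] at hx
      exact (Phi_lt_of_norm_lt hs.le x hx).le
    · exact hx.2.le
  have h1 := measure_mono (μ := volume) hsub
  rw [measure_union hdisj hUo.measurableSet, volume_ball_eq (by omega) (by norm_num)] at h1
  have hfin := volume_K_lt_top (d := d) hs.le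
  have h2 : ENNReal.ofReal (omega d * (1 / 2) ^ d) < volume (K s : Set (E d)) := by
    refine lt_of_lt_of_le ?_ h1
    exact ENNReal.lt_add_right ENNReal.ofReal_ne_top hUpos.ne'
  have h3 := (ENNReal.ofReal_lt_iff_lt_toReal (by have := omega_pos (show 1 ≤ d by omega); positivity)
    hfin.ne).1 h2
  rwa [div_pow, one_pow, mul_one_div] at h3

/-- For every `d ≥ 10` there is `V` with `ω_d / 2^d < V ≤ 1/2` such that for every `β` in
`[ω_d / 2^d, V)` some connected smooth domain `D` in `T^d` of volume `β` has boundary volume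
strictly less than every model value `φ_k(β)` that is defined. -/
theorem result (d : ℕ) (hd : 10 ≤ d) :
    ∃ V : ℝ, omega d / 2 ^ d < V ∧ V ≤ 1 / 2 ∧
      ∀ β : ℝ, omega d / 2 ^ d ≤ β → β < V →
        ∃ D : Set (Torus d), IsSmoothDomain D ∧ IsConnected D ∧ volume D = ENNReal.ofReal β ∧
          ∀ k < d, ∀ r : ℝ, 0 < r → r < 1 / 2 → omega (d - k) * r ^ (d - k) = β →
            boundaryVol D <
              ENNReal.ofReal (((d - k : ℕ) : ℝ) * omega (d - k) * r ^ (d - k - 1)) := by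
  obtain ⟨s, hs, hs1, hF⟩ := exists_s hd
  have hod := omega_pos (show 1 ≤ d by omega)
  set V : ℝ := (volume (K s : Set (E d))).toReal with hV
  have hV1 : omega d / 2 ^ d < V := lt_volume_K (by omega) hs hs1
  have hV2 : V < F d (d - 1) := (volume_K_le (by omega) hs.le).trans_lt hF
  have hV0 : 0 < V := lt_trans (by positivity) hV1
  have hKV : volume (K s : Set (E d)) = ENNReal.ofReal V := by
    rw [hV, ENNReal.ofReal_toReal (volume_K_lt_top hs.le).ne]
  refine ⟨V, hV1, ?_, ?_⟩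
  · exact hV2.le.trans ((F_anti (m := 1) (k := d - 1) le_rfl (by omega) (by omega) hd).trans (F_one hd))
  intro β hβ1 hβ2
  have hβ0 : 0 < β := lt_of_lt_of_le (by positivity) hβ1
  set l : ℝ := (β / V) ^ ((d : ℝ)⁻¹) with hl
  have hld : l ^ d = β / V := Real.rpow_inv_natCast_pow (by positivity) (by omega)
  have hl0 : 0 < l := Real.rpow_pos_of_pos (by positivity) _
  have hl1 : l < 1 := by
    by_contra hcon
    push Not at hcon
    have h1 : 1 ≤ l ^ d := one_le_pow₀ hcon
    rw [hld, le_div_iff₀ hV0] at h1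
    linarith
  have hβl : β = l ^ d * V := by rw [hld]; field_simp
  refine ⟨Dom s l, Dom_smooth hs.le hl0 hl1, Dom_connected hs.le hl0 hl1, ?_, ?_⟩
  · rw [volume_Dom hs.le hl0 hl1, hKV, ← ENNReal.ofReal_mul (by positivity), ← hβl]
  intro k hk r hr hr2 hrβ
  refine (boundaryVol_le hs.le hl0 hl1).trans_lt ?_
  rw [← hV]
  rcases Nat.eq_zero_or_pos k with rfl | hk0
  · exfalso
    rw [Nat.sub_zero] at hrβ
    have h1 : r ^ d < (1 / 2) ^ d := pow_lt_pow_left₀ hr2 hr.le (by omega)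
    have h2 : omega d * r ^ d < omega d * (1 / 2) ^ d := mul_lt_mul_of_pos_left h1 hod
    rw [hrβ, div_pow, one_pow, mul_one_div] at h2
    linarith
  · obtain ⟨m, hm⟩ : ∃ m, m = d - k := ⟨_, rfl⟩
    rw [← hm] at hrβ ⊢
    have hm1 : 1 ≤ m := by omega
    have hmd : m ≤ d - 1 := by omega
    have hm0 : (0 : ℝ) < m := by exact_mod_cast hm1
    have hd0 : (0 : ℝ) < d := by exact_mod_cast (by omega : 0 < d)
    have hom := omega_pos hm1
    have hrlt : r < (m : ℝ) * l / (2 * d) := by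
      by_contra hcon
      push Not at hcon
      have h1 : ((m : ℝ) * l / (2 * d)) ^ m ≤ r ^ m := pow_le_pow_left₀ (by positivity) hcon m
      have h2 : F d m * l ^ m ≤ β := by
        calc F d m * l ^ m = omega m * ((m : ℝ) * l / (2 * d)) ^ m := by
              unfold F; rw [mul_assoc, ← mul_pow]; congr 2; ring
          _ ≤ omega m * r ^ m := mul_le_mul_of_nonneg_left h1 hom.le
          _ = β := hrβ
      have h3 : V < F d m := hV2.trans_le (F_anti hm1 hmd (by omega) hd)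
      have h4 : l ^ d ≤ l ^ m := pow_le_pow_of_le_one hl0.le hl1.le (by omega)
      have h5 : 0 < l ^ m := by positivity
      nlinarith
    have hpos : 0 < (m : ℝ) * omega m * r ^ (m - 1) := by positivity
    rw [ENNReal.ofReal_lt_ofReal_iff hpos]
    have e1 : 2 * (d : ℝ) * l ^ (d - 1) * V * l = 2 * d * β := by
      rw [hβl]
      have : l ^ d = l ^ (d - 1) * l := by rw [← pow_succ, Nat.sub_add_cancel (by omega)]
      rw [this]; ring
    have e2 : (m : ℝ) * omega m * r ^ (m - 1) * r = m * β := by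
      rw [← hrβ]
      have : r ^ m = r ^ (m - 1) * r := by rw [← pow_succ, Nat.sub_add_cancel hm1]
      rw [this]; ring
    rw [lt_div_iff₀ (by positivity)] at hrlt
    have e3 : (2 * (d : ℝ) * l ^ (d - 1) * V) * (l * r) < ((m : ℝ) * omega m * r ^ (m - 1)) * (l * r) := by
      calc (2 * (d : ℝ) * l ^ (d - 1) * V) * (l * r) = (2 * (d : ℝ) * l ^ (d - 1) * V * l) * r := by ring
        _ = 2 * d * β * r := by rw [e1]
        _ = β * (r * (2 * d)) := by ring
        _ < β * (m * l) := mul_lt_mul_of_pos_left hrlt hβ0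
        _ = (m * β) * l := by ring
        _ = ((m : ℝ) * omega m * r ^ (m - 1) * r) * l := by rw [e2]
        _ = ((m : ℝ) * omega m * r ^ (m - 1)) * (l * r) := by ring
    exact lt_of_mul_lt_mul_right e3 (by positivity)

end Pool.Agent.Results.MP_cbfbdc_gt.HighDimension
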